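import Pool.Agent.Helper82.TP.Base

/-! Variables without atoms: differences of independent copies are units; rule (c'). -/

set_option autoImplicit false

namespace Pool.Agent.Helper19.TP

open Finset Filter Topology Pool.Agent.Helper69.RK Pool.Agent.Helper31.EC Pool.Agent.Helper82.TP

noncomputable section

open Sp QS

variable {S : Sp}

/-- a function which is not a unit is small on an event of positive probability -/
theorem exists_small {f : QS S} (hf : ¬ IsUnit f) :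
    ∃ (δ : ℝ) (_ : 0 < δ) (_ : δ ≤ 1) (E : ∀ k, (S.F k).Ω → Prop) (hE : 0 < ul (S.pr E)),
      QS.rest E hE f ∈ Id (S.rest E) δ := by
  obtain ⟨f, rfl⟩ := mk_surj f
  rw [isUnit_mk] at hf
  have h1 : ∃ δ : ℝ, 0 < δ ∧ ¬ Typ (fun k ω => S.dl δ k ≤ |TR.ev f k ω|) := by
    by_contra hc
    push Not at hc
    exact hf (nd_of_levels hc)
  obtain ⟨δ, hδ, hT⟩ := h1
  have hT' : ¬ Typ (fun k ω => S.dl (min δ 1) k ≤ |TR.ev f k ω|) := by
    intro hc
    apply hT
    refine hc.mono (Eventually.of_forall fun k ω _ h => ?_)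
    exact (S.dl_anti (min_le_left _ _) k).trans h
  have hE : 0 < ul (S.pr fun k ω => ¬ S.dl (min δ 1) k ≤ |TR.ev f k ω|) := (typ_or _).resolve_left hT'
  refine ⟨min δ 1, lt_min hδ one_pos, min_le_right _ _, _, hE, ?_⟩
  rw [QS.rest_mk, mk_mem_Id (min_le_right _ _)]
  refine ⟨fun _ _ => True, fun _ => 1, Typ_true, Sp.Sub_const _ zero_le_one, ?_⟩
  have h0 := ul_tendsto (UB_pr (S := S) fun k ω => ¬ S.dl (min δ 1) k ≤ |TR.ev f k ω|)
  filter_upwards [h0.eventually (lt_mem_nhds (half_lt_self hE))] with k hk2 ω a _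
  have hpos : (S.F k).pb (fun ω => ¬ S.dl (min δ 1) k ≤ |TR.ev f k ω|) ≠ 0 := (lt_trans (half_pos hE) hk2).ne'
  have h4 := ((S.F k).rest_supp _ ω a).2 hpos
  have h5 : |TR.ev f k ω| < S.dl (min δ 1) k := not_le.mp h4
  show |TR.ev f k ω - 0| ≤ 1 * S.dl (min δ 1) k
  rw [sub_zero, one_mul]
  exact h5.le

/-- independent variables without atoms differ by a unit -/
theorem isUnit_sub_of_ind {x y : QS S} {A : S.L} (hI : I (dg x 1) (dg y 1) A = 0)
    (hr : ∀ (E : ∀ k, (S.F k).Ω → Prop) (hE : 0 < ul (S.pr E)) (r : ℝ), 0 < r → r ≤ 1 →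
      0 < h (restL E hE (dg x r)) (restL E hE A)) : IsUnit (x - y) := by
  by_contra hc
  obtain ⟨δ, hδ, hδ1, E, hE, hm⟩ := exists_small hc
  rw [map_sub] at hm
  have h1 := dg_eq_of_sub_mem hm le_rfl hδ1
  rw [QS.rest_dg, QS.rest_dg] at h1
  have h2 : I (dg x δ) (dg y δ) A = 0 :=
    I_zero_mono hI ((dg_mono x hδ1).trans le_sup_left) ((dg_mono y hδ1).trans le_sup_left)
  have h3 := I_rest_zero E hE h2
  rw [← h1, I_eq, h_zero (le_sup_left : restL E hE (dg x δ) ≤ restL E hE (dg x δ) ⊔ restL E hE A), sub_zero] at h3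
  exact absurd h3 (hr E hE δ hδ hδ1).ne'

/-- independent copies of a variable without atoms differ by a unit -/
theorem isUnit_sub_copies {W : Sp} {A : W.L} {x : QS W}
    (hr : ∀ (T : Sp) (p : Pj T W) (E : ∀ k, (T.F k).Ω → Prop) (hE : 0 < ul (T.pr E)) (r : ℝ), 0 < r → r ≤ 1 →
      0 < h (restL E hE (p.map (dg x r))) (restL E hE (p.map A)))
    {T : Sp} (p1 p2 : Pj T W) {B : T.L} (hB : p1.map A = B)
    (hI : I (p1.map (dg x 1)) (p2.map (dg x 1)) B = 0) : IsUnit (p1.qs x - p2.qs x) := by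
  apply isUnit_sub_of_ind (A := B)
  · rw [Pj.qs_dg, Pj.qs_dg]
    exact hI
  · intro E hE r h0 h1
    rw [Pj.qs_dg, ← hB]
    exact hr T p1 E hE r h0 h1

/-- rule (c'): a linear function of a variable without atoms with known coefficients is small only if the coefficients
are small -/
theorem lin_small {c0 c1 x : QS S} {A : S.L} (hc0 : dg c0 1 ≤ A) (hc1 : dg c1 1 ≤ A)
    (hr : ∀ (T : Sp) (p : Pj T S) (E : ∀ k, (T.F k).Ω → Prop) (hE : 0 < ul (T.pr E)) (r : ℝ), 0 < r → r ≤ 1 →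
      0 < h (restL E hE (p.map (dg x r))) (restL E hE (p.map A)))
    {r : ℝ} (hr1 : r ≤ 1) (hm : c0 + c1 * x ∈ Id S r) : c0 ∈ Id S r ∧ c1 ∈ Id S r := by
  obtain ⟨f, hf0, hf1⟩ : ∃ f : Fin 2 → QS S, f 0 = c0 ∧ f 1 = c1 := ⟨![c0, c1], rfl, rfl⟩
  have hfA : vd f 1 ≤ A := by
    rw [vd_le]
    intro i
    fin_cases i
    · show dg (f 0) 1 ≤ A
      rw [hf0]
      exact hc0
    · show dg (f 1) 1 ≤ A
      rw [hf1]
      exact hc1
  obtain ⟨C⟩ := exists_CQ f 1
  have hu : IsUnit ((C.p 0).qs x - (C.p 1).qs x) := by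
    apply isUnit_sub_copies (A := vd f 1) (B := C.v)
    · intro T p E hE r h0 h1
      refine (hr T p E hE r h0 h1).trans_le (h_anti ?_)
      exact restL_mono E hE (p.map_mono hfA)
    · rfl
    · exact C.I_two (by decide) _ _
  have h0 := Pj_mem_Id (C.p 0) hm
  have h1 := Pj_mem_Id (C.p 1) hm
  have e0 : (C.p 1).qs c0 = (C.p 0).qs c0 := by rw [← hf0]; exact C.com 1 0 0
  have e1 : (C.p 1).qs c1 = (C.p 0).qs c1 := by rw [← hf1]; exact C.com 1 0 1
  rw [map_add, map_mul] at h0 h1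
  rw [e0, e1] at h1
  have h2 : ((C.p 0).qs x - (C.p 1).qs x) * (C.p 0).qs c1 ∈ Id C.W r := by
    have h3 := (Id C.W r).sub_mem h0 h1
    have e2 : (C.p 0).qs c0 + (C.p 0).qs c1 * (C.p 0).qs x - ((C.p 0).qs c0 + (C.p 0).qs c1 * (C.p 1).qs x) =
        ((C.p 0).qs x - (C.p 1).qs x) * (C.p 0).qs c1 := by ring
    rwa [e2] at h3
  have h4 := mem_Id_of_unit_mul hu h2
  have h5 : c1 ∈ Id S r := (Pj.qs_mem_Id (C.p 0) hr1).mp h4
  refine ⟨?_, h5⟩
  have h6 := (Id S r).sub_mem hm ((Id S r).mul_mem_right x h5)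
  rwa [add_sub_cancel_right] at h6

end

end Pool.Agent.Helper19.TP
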